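import Pool.Agent.H673.Tight.Core

set_option autoImplicit false

namespace Pool.Agent.Results.MP_163ab5_co.CoveringOrPairs

open Finset

/-- The covering property of a family `A` at its minimal non-empty members: if `a` is a minimal
non-empty member of `A` and `X ⊆ Y ⊆ X ∪ a` with `X`, `Y` in `A`, then `Y = X` or `Y = X ∪ a`. -/
def AtomCovering {α : Type} [DecidableEq α] (A : Finset (Finset α)) : Prop :=
  ∀ a ∈ A, a ≠ ∅ → (∀ X ∈ A, X ⊆ a → X = ∅ ∨ X = a) →
    ∀ X ∈ A, ∀ Y ∈ A, X ⊆ Y → Y ⊆ X ∪ a → Y = X ∨ Y = X ∪ a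

/-- Every member of `A` is a union of members of `A` with at most two elements. -/
def GeneratedByPairs {α : Type} (A : Finset (Finset α)) : Prop :=
  ∀ X ∈ A, ∀ x ∈ X, ∃ Y ∈ A, x ∈ Y ∧ Y ⊆ X ∧ Y.card ≤ 2

theorem result {α : Type} [DecidableEq α] (A : Finset (Finset α)) (hne : A.Nonempty)
    (hne' : A ≠ {∅}) (hU : ∀ X ∈ A, ∀ Y ∈ A, X ∪ Y ∈ A)
    (hle : ∀ i : α, 2 * (A.filter (fun X => i ∈ X)).card ≤ A.card)
    (hA : AtomCovering A ∨ GeneratedByPairs A) :
    ∅ ∈ A ∧ ∃ k : ℕ, A.card = 2 ^ k := by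
  have hex : ∃ X ∈ A, X ≠ ∅ := by
    by_contra h
    push Not at h
    apply hne'
    obtain ⟨Y, hY⟩ := hne
    ext X
    rw [mem_singleton]
    exact ⟨fun hX => h X hX, fun hX => by rw [hX, ← h Y hY]; exact hY⟩
  apply Pool.Agent.H673.Tight.tight_of_cov hex hU hle
  rcases hA with hA | hA
  · apply Pool.Agent.H673.Tight.cov_insert
    intro a ha X hX Y hY hXY hYX
    exact hA a ha.1 ha.2.1 ha.2.2 X hX Y hY hXY hYX
  · apply Pool.Agent.H673.Tight.cov_of_pairs (mem_insert_self _ _)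
      (Pool.Agent.H673.Tight.union_insert hU)
    · intro i
      rw [Pool.Agent.H673.Tight.filter_insert_empty]
      exact (hle i).trans (card_le_card (subset_insert _ _))
    · intro X hX x hx
      rcases mem_insert.1 hX with rfl | hX'
      · simp at hx
      · obtain ⟨Y, hY, h1, h2, h3⟩ := hA X hX' x hx
        exact ⟨Y, mem_insert_of_mem hY, h1, h2, h3⟩

end Pool.Agent.Results.MP_163ab5_co.CoveringOrPairs
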