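import Mathlib

set_option autoImplicit false

namespace Pool.Agent.Results.MP_163ab5_co.SemimodularFamilies

variable {α : Type*} [DecidableEq α]

/-- `A` is union-closed. -/
def UnionClosed (A : Finset (Finset α)) : Prop := ∀ X ∈ A, ∀ Y ∈ A, X ∪ Y ∈ A

/-- The number of members of `A` containing `i`. -/
def deg (A : Finset (Finset α)) (i : α) : ℕ := (A.filter (fun X => i ∈ X)).card

/-- `A` is a tight union-closed family: `A ≠ ∅`, `A ≠ {∅}`, and the most frequent element lies in
exactly half of the members. -/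
def Tight (A : Finset (Finset α)) : Prop :=
  UnionClosed A ∧ A ≠ ∅ ∧ A ≠ {∅} ∧ (∀ i, 2 * deg A i ≤ A.card) ∧ ∃ i, 2 * deg A i = A.card

/-- `Y` covers `X` in the family `F` ordered by inclusion. -/
def Covers (F : Finset (Finset α)) (X Y : Finset α) : Prop :=
  X ∈ F ∧ Y ∈ F ∧ X ⊆ Y ∧ X ≠ Y ∧ ∀ Z ∈ F, X ⊆ Z → Z ⊆ Y → Z = X ∨ Z = Y

/-- `M` is the meet of `X` and `Y` in the family `F` ordered by inclusion: the largest member
contained in both. -/
def IsMeet (F : Finset (Finset α)) (X Y M : Finset α) : Prop :=
  M ∈ F ∧ M ⊆ X ∧ M ⊆ Y ∧ ∀ Z ∈ F, Z ⊆ X → Z ⊆ Y → Z ⊆ M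

/-- The union-closed family `F` (with `∅ ∈ F`, so that it is a lattice under inclusion, the join
being the union) is (upper) semimodular: if `X` covers the meet of `X` and `Y`, then `X ∪ Y`
covers `Y`. -/
def Semimodular (F : Finset (Finset α)) : Prop :=
  ∀ X ∈ F, ∀ Y ∈ F, ∀ M, IsMeet F X Y M → Covers F M X → Covers F Y (X ∪ Y)

theorem exists_atom {F : Finset (Finset α)} (h0 : ∅ ∈ F) (hF : ∃ X ∈ F, X ≠ ∅) :
    ∃ C, Covers F ∅ C := by
  obtain ⟨X, hX, hXne⟩ := hF
  obtain ⟨C, hC, hmin⟩ := Finset.exists_min_image (F.filter (fun X => X ≠ ∅)) Finset.card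
    ⟨X, Finset.mem_filter.2 ⟨hX, hXne⟩⟩
  rw [Finset.mem_filter] at hC
  refine ⟨C, h0, hC.1, Finset.empty_subset _, fun h => hC.2 h.symm, ?_⟩
  intro Z hZ _ hZC
  by_cases hZ0 : Z = ∅
  · exact Or.inl hZ0
  · exact Or.inr (Finset.eq_of_subset_of_card_le hZC (hmin Z (Finset.mem_filter.2 ⟨hZ, hZ0⟩)))

/-- the map `X ↦ C ∪ X` on the members avoiding `i ∈ C` -/
theorem inj {F : Finset (Finset α)} (hu : UnionClosed F) (hs : Semimodular F) {C : Finset α}
    (hC : Covers F ∅ C) {i : α} (hi : i ∈ C) :
    Set.InjOn (fun X => C ∪ X) (F.filter (fun X => i ∉ X) : Finset (Finset α)) := by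
  have hcov : ∀ X ∈ F, i ∉ X → Covers F X (C ∪ X) := by
    intro X hX hiX
    refine hs C hC.2.1 X hX ∅ ⟨hC.1, Finset.empty_subset _, Finset.empty_subset _, ?_⟩ hC
    intro Z hZ hZC hZX
    rcases hC.2.2.2.2 Z hZ (Finset.empty_subset _) hZC with h | h
    · rw [h]
    · exact absurd (hZX (h ▸ hi)) hiX
  have half : ∀ X ∈ F, i ∉ X → ∀ Y ∈ F, i ∉ Y → C ∪ X = C ∪ Y → Y ⊆ X := by
    intro X hX hiX Y hY hiY hXY
    rcases (hcov X hX hiX).2.2.2.2 (X ∪ Y) (hu X hX Y hY) Finset.subset_union_left
      (Finset.union_subset Finset.subset_union_right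
        (by rw [hXY]; exact Finset.subset_union_right)) with h | h
    · rw [← h]; exact Finset.subset_union_right
    · exfalso
      have : i ∈ X ∪ Y := by rw [h]; exact Finset.mem_union_left _ hi
      rcases Finset.mem_union.1 this with h' | h'
      · exact hiX h'
      · exact hiY h'
  intro X hX Y hY hXY
  simp only [Finset.coe_filter, Set.mem_ofPred_eq] at hX hY
  exact Finset.Subset.antisymm (half Y hY.1 hY.2 X hX.1 hX.2 hXY.symm)
    (half X hX.1 hX.2 Y hY.1 hY.2 hXY)

theorem maps {F : Finset (Finset α)} (hu : UnionClosed F) {C : Finset α}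
    (hC : Covers F ∅ C) {i : α} (hi : i ∈ C) :
    (F.filter (fun X => i ∉ X)).image (fun X => C ∪ X) ⊆ F.filter (fun X => i ∈ X) := by
  intro Z hZ
  obtain ⟨X, hX, rfl⟩ := Finset.mem_image.1 hZ
  rw [Finset.mem_filter] at hX ⊢
  exact ⟨hu _ hC.2.1 _ hX.1, Finset.mem_union_left _ hi⟩

theorem card_split (F : Finset (Finset α)) (i : α) :
    deg F i + (F.filter (fun X => i ∉ X)).card = F.card :=
  Finset.card_filter_add_card_filter_not _

theorem le_deg {F : Finset (Finset α)} (hu : UnionClosed F) (hs : Semimodular F) {C : Finset α}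
    (hC : Covers F ∅ C) {i : α} (hi : i ∈ C) :
    (F.filter (fun X => i ∉ X)).card ≤ deg F i := by
  rw [← Finset.card_image_of_injOn (inj hu hs hC hi)]
  exact Finset.card_le_card (maps hu hC hi)

theorem image_eq {F : Finset (Finset α)} (hu : UnionClosed F) (hs : Semimodular F) {C : Finset α}
    (hC : Covers F ∅ C) {i : α} (hi : i ∈ C) (hd : 2 * deg F i ≤ F.card) :
    (F.filter (fun X => i ∉ X)).image (fun X => C ∪ X) = F.filter (fun X => i ∈ X) := by
  apply Finset.eq_of_subset_of_card_le (maps hu hC hi)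
  rw [Finset.card_image_of_injOn (inj hu hs hC hi)]
  have := card_split F i
  unfold deg at *
  omega

theorem main (n : ℕ) : ∀ F : Finset (Finset α), F.card = n → UnionClosed F → ∅ ∈ F →
    Semimodular F → (∀ i, 2 * deg F i ≤ F.card) →
    ∃ B : Finset (Finset α), ∅ ∉ B ∧ (∀ X ∈ B, ∀ Y ∈ B, X ≠ Y → Disjoint X Y) ∧
      F = B.powerset.image (fun S => S.sup id) ∧ F.card = 2 ^ B.card := by
  induction n using Nat.strong_induction_on with
  | _ n ih =>
    intro F hn hu h0 hs hd
    by_cases hne : ∃ X ∈ F, X ≠ ∅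
    · obtain ⟨C, hC⟩ := exists_atom h0 hne
      obtain ⟨i, hi⟩ : ∃ i, i ∈ C := by
        rcases Finset.eq_empty_or_nonempty C with h | h
        · exact absurd h.symm hC.2.2.2.1
        · exact h
      set F₀ := F.filter (fun X => i ∉ X) with hF₀
      have himg := image_eq hu hs hC hi (hd i)
      have hcard : F.card = 2 * F₀.card := by
        have h1 := card_split F i
        have h2 : deg F i = F₀.card := by
          unfold deg
          rw [← himg, Finset.card_image_of_injOn (inj hu hs hC hi)]
        rw [← hF₀] at h1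
        omega
      have hpos : 0 < F₀.card :=
        Finset.card_pos.2 ⟨∅, Finset.mem_filter.2 ⟨h0, Finset.notMem_empty i⟩⟩
      have hu₀ : UnionClosed F₀ := by
        intro X hX Y hY
        rw [hF₀, Finset.mem_filter] at hX hY ⊢
        refine ⟨hu _ hX.1 _ hY.1, fun h => ?_⟩
        rcases Finset.mem_union.1 h with h | h
        · exact hX.2 h
        · exact hY.2 h
      have hsub : ∀ Z ∈ F, ∀ X ∈ F₀, Z ⊆ X → Z ∈ F₀ := by
        intro Z hZ X hX hZX
        rw [hF₀, Finset.mem_filter] at hX ⊢
        exact ⟨hZ, fun h => hX.2 (hZX h)⟩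
      have hle : ∀ X ∈ F₀, X ∈ F := fun X hX => (Finset.mem_filter.1 hX).1
      have hs₀ : Semimodular F₀ := by
        intro X hX Y hY M hM hcov
        have hM' : IsMeet F X Y M :=
          ⟨hle _ hM.1, hM.2.1, hM.2.2.1, fun Z hZ h1 h2 => hM.2.2.2 Z (hsub Z hZ X hX h1) h1 h2⟩
        have hcov' : Covers F M X :=
          ⟨hle _ hM.1, hle _ hX, hM.2.1, hcov.2.2.2.1,
            fun Z hZ h1 h2 => hcov.2.2.2.2 Z (hsub Z hZ X hX h2) h1 h2⟩
        have := hs X (hle _ hX) Y (hle _ hY) M hM' hcov'
        exact ⟨hY, hu₀ _ hX _ hY, this.2.2.1, this.2.2.2.1,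
          fun Z hZ h1 h2 => this.2.2.2.2 Z (hle _ hZ) h1 h2⟩
      have hd₀ : ∀ j, 2 * deg F₀ j ≤ F₀.card := by
        intro j
        have h1 : deg F₀ j + deg F₀ j ≤ deg F j := by
          have h2 : (F₀.filter (fun X => j ∈ X)) ∪
              (F₀.filter (fun X => j ∈ X)).image (fun X => C ∪ X) ⊆
              F.filter (fun X => j ∈ X) := by
            intro Z hZ
            rcases Finset.mem_union.1 hZ with h | h
            · rw [Finset.mem_filter] at h ⊢
              exact ⟨hle _ h.1, h.2⟩
            · obtain ⟨X, hX, rfl⟩ := Finset.mem_image.1 h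
              rw [Finset.mem_filter] at hX ⊢
              exact ⟨hu _ hC.2.1 _ (hle _ hX.1), Finset.mem_union_right _ hX.2⟩
          have h3 : Disjoint (F₀.filter (fun X => j ∈ X))
              ((F₀.filter (fun X => j ∈ X)).image (fun X => C ∪ X)) := by
            rw [Finset.disjoint_left]
            intro Z hZ hZ'
            obtain ⟨X, hX, rfl⟩ := Finset.mem_image.1 hZ'
            rw [Finset.mem_filter, hF₀, Finset.mem_filter] at hZ
            exact hZ.1.2 (Finset.mem_union_left _ hi)
          have h4 := Finset.card_le_card h2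
          rw [Finset.card_union_of_disjoint h3, Finset.card_image_of_injOn
            ((inj hu hs hC hi).mono (by
              intro X hX
              exact (Finset.mem_filter.1 hX).1))] at h4
          exact h4
        have := hd j
        omega
      obtain ⟨B, hB0, hBd, hBF, hBc⟩ := ih F₀.card (by omega) F₀ rfl hu₀
        (Finset.mem_filter.2 ⟨h0, Finset.notMem_empty i⟩) hs₀ hd₀
      have hBmem : ∀ b ∈ B, b ∈ F₀ := by
        intro b hb
        rw [hBF]
        exact Finset.mem_image.2 ⟨{b}, Finset.mem_powerset.2 (Finset.singleton_subset_iff.2 hb),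
          by simp⟩
      have hdisj : ∀ b ∈ B, Disjoint C b := by
        intro b hb
        rw [Finset.disjoint_left]
        intro j hj hjb
        have himg' := image_eq hu hs hC hj (hd j)
        have hb' : b ∈ F.filter (fun X => j ∈ X) :=
          Finset.mem_filter.2 ⟨hle _ (hBmem b hb), hjb⟩
        rw [← himg'] at hb'
        obtain ⟨X, _, hX⟩ := Finset.mem_image.1 hb'
        have hib : i ∈ b := by rw [← hX]; exact Finset.mem_union_left _ hi
        exact (Finset.mem_filter.1 (hBmem b hb)).2 hib
      have hCB : C ∉ B := fun h => (Finset.mem_filter.1 (hBmem C h)).2 hi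
      refine ⟨insert C B, ?_, ?_, ?_, ?_⟩
      · intro h
        rcases Finset.mem_insert.1 h with h | h
        · exact hC.2.2.2.1 h
        · exact hB0 h
      · intro X hX Y hY hXY
        rcases Finset.mem_insert.1 hX with h | h <;> rcases Finset.mem_insert.1 hY with h' | h'
        · exact absurd (h.trans h'.symm) hXY
        · rw [h]; exact hdisj Y h'
        · rw [h']; exact (hdisj X h).symm
        · exact hBd X h Y h' hXY
      · rw [Finset.powerset_insert, Finset.image_union, ← hBF, Finset.image_image]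
        have h1 : (B.powerset).image ((fun S => S.sup id) ∘ insert C) = F.filter (fun X => i ∈ X) := by
          rw [← himg, ← hF₀, hBF, Finset.image_image]
          apply Finset.image_congr
          intro S _
          simp [Finset.sup_insert]
        rw [h1, hF₀, Finset.union_comm, Finset.filter_union_filter_not_eq]
      · rw [Finset.card_insert_of_notMem hCB, hcard, hBc, pow_succ]; ring
    · push Not at hne
      have hF : F = {∅} := by
        ext X
        rw [Finset.mem_singleton]
        exact ⟨hne X, fun h => h ▸ h0⟩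
      refine ⟨∅, by simp, by simp, ?_, ?_⟩
      · rw [hF]; simp
      · rw [hF]; simp

/-- A tight union-closed family `A` for which `A ∪ {∅}`, ordered by inclusion, is an (upper)
semimodular lattice consists of all unions of `k` pairwise disjoint nonempty sets; in particular it
has `2 ^ k` members. -/
theorem semimod (A : Finset (Finset α)) (hA : Tight A) (hs : Semimodular (insert ∅ A)) :
    ∃ B : Finset (Finset α), ∅ ∉ B ∧ (∀ X ∈ B, ∀ Y ∈ B, X ≠ Y → Disjoint X Y) ∧
      A = B.powerset.image (fun S => S.sup id) ∧ A.card = 2 ^ B.card := by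
  obtain ⟨hu, hne, hne', hd, -⟩ := hA
  have hu' : UnionClosed (insert ∅ A) := by
    intro X hX Y hY
    rcases Finset.mem_insert.1 hX with h | h <;> rcases Finset.mem_insert.1 hY with h' | h'
    · rw [h, h']; simp
    · rw [h]; simp [h']
    · rw [h']; simp [h]
    · exact Finset.mem_insert_of_mem (hu X h Y h')
  have h0 : ∅ ∈ A := by
    by_contra h0
    have hex : ∃ X ∈ insert ∅ A, X ≠ ∅ := by
      obtain ⟨X, hX⟩ := Finset.nonempty_iff_ne_empty.2 hne
      exact ⟨X, Finset.mem_insert_of_mem hX, fun h => h0 (h ▸ hX)⟩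
    obtain ⟨C, hC⟩ := exists_atom (Finset.mem_insert_self _ _) hex
    obtain ⟨i, hi⟩ : ∃ i, i ∈ C := by
      rcases Finset.eq_empty_or_nonempty C with h | h
      · exact absurd h.symm hC.2.2.2.1
      · exact h
    have h1 := le_deg hu' hs hC hi
    have h2 : deg (insert ∅ A) i = deg A i := by
      unfold deg
      rw [Finset.filter_insert, if_neg (Finset.notMem_empty i)]
    have h3 := card_split (insert ∅ A) i
    rw [Finset.card_insert_of_notMem h0] at h3
    have := hd i
    omega
  rw [Finset.insert_eq_of_mem h0] at hs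
  exact main _ A rfl hu h0 hs hd

/-- If `A ∪ {∅}` is closed under intersections, it is semimodular. -/
theorem semimodular_of_inter (F : Finset (Finset α)) (hu : UnionClosed F)
    (hi : ∀ X ∈ F, ∀ Y ∈ F, X ∩ Y ∈ F) : Semimodular F := by
  intro X hX Y hY M hM hcov
  have hMeq : M = X ∩ Y := by
    apply Finset.Subset.antisymm (Finset.subset_inter hM.2.1 hM.2.2.1)
    exact hM.2.2.2 _ (hi X hX Y hY) Finset.inter_subset_left Finset.inter_subset_right
  subst hMeq
  refine ⟨hY, hu X hX Y hY, Finset.subset_union_right, ?_, ?_⟩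
  · intro h
    apply hcov.2.2.2.1
    apply Finset.inter_eq_left.2
    rw [h]; exact Finset.subset_union_left
  · intro Z hZ h1 h2
    rcases hcov.2.2.2.2 (X ∩ Z) (hi X hX Z hZ)
      (Finset.inter_subset_inter_left h1) Finset.inter_subset_left with h | h
    · left
      apply Finset.Subset.antisymm _ h1
      intro z hz
      rcases Finset.mem_union.1 (h2 hz) with h' | h'
      · have : z ∈ X ∩ Z := Finset.mem_inter.2 ⟨h', hz⟩
        rw [h] at this
        exact (Finset.mem_inter.1 this).2
      · exact h'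
    · right
      apply Finset.Subset.antisymm h2
      exact Finset.union_subset (Finset.inter_eq_left.1 h) h1

/-- the number of one-element steps from `∅` inside `Y` that leave `X` -/
theorem exists_step {F : Finset (Finset α)} (hu : UnionClosed F)
    (ha : ∀ X ∈ F, X ≠ ∅ → ∃ x ∈ X, X.erase x ∈ F) (X : Finset α) (hX : X ∈ F) :
    ∀ n : ℕ, ∀ Y ∈ F, Y.card = n → ¬ Y ⊆ X → ∃ y ∈ Y, y ∉ X ∧ insert y X ∈ F := by
  intro n
  induction n with
  | zero =>
    intro Y _ hc hY
    rw [Finset.card_eq_zero] at hc
    exact absurd (by rw [hc]; exact Finset.empty_subset _) hY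
  | succ n ih =>
    intro Y hY hc hYX
    obtain ⟨y, hy, hyF⟩ := ha Y hY (by rintro rfl; simp at hc)
    by_cases h : Y.erase y ⊆ X
    · have hyX : y ∉ X := by
        intro hyX
        apply hYX
        intro z hz
        by_cases hzy : z = y
        · rw [hzy]; exact hyX
        · exact h (Finset.mem_erase.2 ⟨hzy, hz⟩)
      refine ⟨y, hy, hyX, ?_⟩
      have h1 : insert y X = X ∪ Y := by
        ext z
        rw [Finset.mem_insert, Finset.mem_union]
        constructor
        · rintro (rfl | hz)
          · exact Or.inr hy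
          · exact Or.inl hz
        · rintro (hz | hz)
          · exact Or.inr hz
          · by_cases hzy : z = y
            · exact Or.inl hzy
            · exact Or.inr (h (Finset.mem_erase.2 ⟨hzy, hz⟩))
      rw [h1]; exact hu X hX Y hY
    · obtain ⟨z, hz, h1, h2⟩ := ih (Y.erase y) hyF
        (by rw [Finset.card_erase_of_mem hy, hc]; rfl) h
      exact ⟨z, (Finset.mem_erase.1 hz).2, h1, h2⟩

/-- Antimatroids (union-closed families in which every nonempty member stays a member after the
removal of some element) are semimodular. -/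
theorem semimodular_of_accessible (F : Finset (Finset α)) (hu : UnionClosed F)
    (ha : ∀ X ∈ F, X ≠ ∅ → ∃ x ∈ X, X.erase x ∈ F) : Semimodular F := by
  intro X hX Y hY M hM hcov
  obtain ⟨x, hx, hxM, hxF⟩ := exists_step hu ha M hM.1 _ X hX rfl
    (fun h => hcov.2.2.2.1 (Finset.Subset.antisymm hM.2.1 h))
  have hXeq : insert x M = X := by
    rcases hcov.2.2.2.2 _ hxF (Finset.subset_insert x M)
      (Finset.insert_subset hx hM.2.1) with h | h
    · exact absurd (h ▸ Finset.mem_insert_self x M) hxM
    · exact h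
  have hxY : x ∉ Y := by
    intro hxY
    have h1 : X ⊆ Y := by rw [← hXeq]; exact Finset.insert_subset hxY hM.2.2.1
    exact hxM (hM.2.2.2 X hX (Finset.Subset.refl _) h1 hx)
  have hXY : X ∪ Y = insert x Y := by
    rw [← hXeq]
    ext z
    simp only [Finset.mem_union, Finset.mem_insert]
    constructor
    · rintro ((h | h) | h)
      · exact Or.inl h
      · exact Or.inr (hM.2.2.1 h)
      · exact Or.inr h
    · rintro (h | h)
      · exact Or.inl (Or.inl h)
      · exact Or.inr h
  refine ⟨hY, hu X hX Y hY, Finset.subset_union_right, ?_, ?_⟩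
  · intro h
    apply hxY
    rw [h]; exact Finset.mem_union_left _ hx
  · intro Z hZ h1 h2
    rw [hXY] at h2 ⊢
    by_cases hxZ : x ∈ Z
    · right
      exact Finset.Subset.antisymm h2 (Finset.insert_subset hxZ h1)
    · left
      apply Finset.Subset.antisymm _ h1
      intro z hz
      rcases Finset.mem_insert.1 (h2 hz) with h | h
      · exact absurd (h ▸ hz) hxZ
      · exact h

/-- Let `A` be a tight union-closed family such that `A ∪ {∅}`, ordered by inclusion, is an (upper)
semimodular lattice; this holds in particular if `A ∪ {∅}` is closed under intersections or is an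
antimatroid. Then `A` consists of all unions of subfamilies of a family of `k` pairwise disjoint
nonempty sets, and `A` has exactly `2 ^ k` members. -/
theorem result (A : Finset (Finset α)) (hA : Tight A)
    (hs : Semimodular (insert ∅ A) ∨
      (∀ X ∈ insert ∅ A, ∀ Y ∈ insert ∅ A, X ∩ Y ∈ insert ∅ A) ∨
      ∀ X ∈ insert ∅ A, X ≠ ∅ → ∃ x ∈ X, X.erase x ∈ insert ∅ A) :
    ∃ B : Finset (Finset α), ∅ ∉ B ∧ (∀ X ∈ B, ∀ Y ∈ B, X ≠ Y → Disjoint X Y) ∧
      A = B.powerset.image (fun S => S.sup id) ∧ A.card = 2 ^ B.card := by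
  have hu' : UnionClosed (insert ∅ A) := by
    intro X hX Y hY
    rcases Finset.mem_insert.1 hX with h | h <;> rcases Finset.mem_insert.1 hY with h' | h'
    · rw [h, h']; simp
    · rw [h]; simp [h']
    · rw [h']; simp [h]
    · exact Finset.mem_insert_of_mem (hA.1 X h Y h')
  rcases hs with hs | hs | hs
  · exact semimod A hA hs
  · exact semimod A hA (semimodular_of_inter _ hu' hs)
  · exact semimod A hA (semimodular_of_accessible _ hu' hs)

end Pool.Agent.Results.MP_163ab5_co.SemimodularFamilies
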